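import Mathlib

namespace Pool.Agent.Results.MP_e65cda_an.OnlyTwo

/-- `p` is good: for every nonnegative coefficient sequence `α` with least period `p`, every
solution of `x_{n+2} = (α_n + x_{n+1}) / x_n` with positive initial values is bounded
(`x 0`, `x 1` are the initial values `x_{-1}`, `x_0` of the problem). -/
def Good (p : ℕ) : Prop :=
  ∀ α : ℕ → ℝ, (∀ n, 0 ≤ α n) → (∀ n, α (n + p) = α n) →
    (∀ q, 0 < q → q < p → ¬ ∀ n, α (n + q) = α n) →
      ∀ x : ℕ → ℝ, 0 < x 0 → 0 < x 1 → (∀ n, x (n + 2) = (α n + x (n + 1)) / x n) →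
        BddAbove (Set.range x)

/-- the solution with given coefficients and initial values -/
noncomputable def sol (α : ℕ → ℝ) (a b : ℝ) : ℕ → ℝ
  | 0 => a
  | 1 => b
  | n + 2 => (α n + sol α a b (n + 1)) / sol α a b n

lemma pos_of {α : ℕ → ℝ} (hα : ∀ n, 0 ≤ α n) {x : ℕ → ℝ} (h0 : 0 < x 0) (h1 : 0 < x 1)
    (hr : ∀ n, x (n + 2) = (α n + x (n + 1)) / x n) (n : ℕ) : 0 < x n := by
  have : 0 < x n ∧ 0 < x (n + 1) := by
    induction n with
    | zero => exact ⟨h0, h1⟩
    | succ n ih =>
      refine ⟨ih.2, ?_⟩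
      rw [hr]
      have := hα n
      have := ih.1
      have := ih.2
      positivity
  exact this.1

/-- a periodic pattern with an unbounded positive solution -/
def Base (r : ℕ) (w : ℕ → ℝ) : Prop :=
  (∀ n, 0 ≤ w n) ∧ (∀ n, w (n + r) = w n) ∧ ∃ y : ℕ → ℝ, 0 < y 0 ∧ 0 < y 1 ∧
    (∀ n, y (n + 2) = (w n + y (n + 1)) / y n) ∧ ¬ BddAbove (Set.range y)

lemma base_of {r : ℕ} (w : ℕ → ℝ) (hw : ∀ n, 0 ≤ w n) (hp : ∀ n, w (n + r) = w n) (T : ℕ)
    (I : ℝ → ℝ → Prop) (i : ℕ) (P Q : ℝ) (hI : I P Q) (_hi : i ≤ 1)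
    (H : ∀ X : ℕ → ℝ, (∀ n, w n = 0 → X (n + 2) = X (n + 1) - X n) →
      (∀ n c, w n = Real.exp c → c ≤ X (n + 2) + X n ∧ X (n + 1) ≤ X (n + 2) + X n ∧
        X (n + 2) + X n ≤ max c (X (n + 1)) + 1) →
      ∀ m, I (X (T * m)) (X (T * m + 1)) → I (X (T * (m + 1))) (X (T * (m + 1) + 1)) ∧
        X (T * m + i) + 1 ≤ X (T * (m + 1) + i)) : Base r w := by
  let y := sol w (Real.exp P) (Real.exp Q)
  have hr : ∀ n, y (n + 2) = (w n + y (n + 1)) / y n := fun n => rfl
  have h0 : 0 < y 0 := Real.exp_pos _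
  have h1 : 0 < y 1 := Real.exp_pos _
  have hy := pos_of hw h0 h1 hr
  refine ⟨hw, hp, y, h0, h1, hr, ?_⟩
  have H' := H (fun n => Real.log (y n)) (fun n hn => by
      rw [hr, hn, zero_add, Real.log_div (hy _).ne' (hy _).ne']) (fun n c hn => by
      have e : Real.log (y (n + 2)) + Real.log (y n) = Real.log (Real.exp c + y (n + 1)) := by
        have := hy (n + 1)
        rw [hr, hn, Real.log_div (by positivity) (hy _).ne']
        ring
      rw [e]
      have hc := Real.exp_pos c
      have h2 := hy (n + 1)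
      refine ⟨?_, Real.log_le_log h2 (by linarith), ?_⟩
      · rw [Real.le_log_iff_exp_le (by positivity)]
        linarith
      · rw [Real.log_le_iff_le_exp (by positivity), Real.exp_add]
        have a := Real.exp_le_exp.mpr (le_max_left c (Real.log (y (n + 1))))
        have b := Real.exp_le_exp.mpr (le_max_right c (Real.log (y (n + 1))))
        rw [Real.exp_log h2] at b
        have d := Real.add_one_le_exp 1
        nlinarith [Real.exp_pos (max c (Real.log (y (n + 1))))])
  have key : ∀ m : ℕ, I (Real.log (y (T * m))) (Real.log (y (T * m + 1))) ∧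
      Real.log (y i) + m ≤ Real.log (y (T * m + i)) := by
    intro m
    induction m with
    | zero => simpa [y, sol] using hI
    | succ m ih =>
      have := H' m ih.1
      refine ⟨this.1, ?_⟩
      have a := this.2
      have b := ih.2
      push_cast
      linarith
  rintro ⟨C, hC⟩
  obtain ⟨m, hm⟩ := exists_nat_gt (C - Real.log (y i))
  have a := (key m).2
  have b := hC ⟨T * m + i, rfl⟩
  have c := Real.log_le_sub_one_of_pos (hy (T * m + i))
  linarith

/-- base pattern of period 3 -/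
noncomputable def w3 : ℕ → ℝ := fun n => if n % 3 = 0 then 0 else if n % 3 = 1 then 0 else Real.exp (1)

lemma w3_nonneg (n : ℕ) : 0 ≤ w3 n := by
  unfold w3
  split_ifs <;> positivity

lemma base3 : Base 3 w3 := by
  refine base_of w3 w3_nonneg (fun n => by simp [w3]) 6 (fun P Q => P ≤ -5 ∧ -5 ≤ P) 1 (-5) (0)
    (by norm_num) (by norm_num) ?_
  intro X hz hA m hI
  have h0 := hz (6 * m + 0) (by simp only [w3]; rw [show (6 * m + 0) % 3 = 0 by omega]; norm_num)
  have h1 := hz (6 * m + 1) (by simp only [w3]; rw [show (6 * m + 1) % 3 = 1 by omega]; norm_num)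
  have h2 := hA (6 * m + 2) (1) (by simp only [w3]; rw [show (6 * m + 2) % 3 = 2 by omega]; norm_num)
  have h3 := hz (6 * m + 3) (by simp only [w3]; rw [show (6 * m + 3) % 3 = 0 by omega]; norm_num)
  have h4 := hz (6 * m + 4) (by simp only [w3]; rw [show (6 * m + 4) % 3 = 1 by omega]; norm_num)
  have h5 := hA (6 * m + 5) (1) (by simp only [w3]; rw [show (6 * m + 5) % 3 = 2 by omega]; norm_num)
  simp only [add_assoc, Nat.reduceAdd, add_zero] at h0 h1 h2 h3 h4 h5 hI ⊢
  rw [show 6 * (m + 1) = 6 * m + 6 by ring]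
  simp only [add_assoc, Nat.reduceAdd]
  obtain ⟨hI1, hI2⟩ := hI
  obtain ⟨a2, b2, c2⟩ := h2
  rw [max_eq_right (by linarith)] at c2
  obtain ⟨a5, b5, c5⟩ := h5
  rw [max_eq_left (by linarith)] at c5
  exact ⟨⟨by linarith, by linarith⟩, by linarith⟩
/-- base pattern of period 4 -/
noncomputable def w4 : ℕ → ℝ := fun n => if n % 4 = 0 then 0 else if n % 4 = 1 then Real.exp (5) else if n % 4 = 2 then 0 else Real.exp (-5)

lemma w4_nonneg (n : ℕ) : 0 ≤ w4 n := by
  unfold w4
  split_ifs <;> positivity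

lemma base4 : Base 4 w4 := by
  refine base_of w4 w4_nonneg (fun n => by simp [w4]) 16 (fun P Q => 30 ≤ P ∧ 30 ≤ Q - P) 0 (30) (60)
    (by norm_num) (by norm_num) ?_
  intro X hz hA m hI
  have h0 := hz (16 * m + 0) (by simp only [w4]; rw [show (16 * m + 0) % 4 = 0 by omega]; norm_num)
  have h1 := hA (16 * m + 1) (5) (by simp only [w4]; rw [show (16 * m + 1) % 4 = 1 by omega]; norm_num)
  have h2 := hz (16 * m + 2) (by simp only [w4]; rw [show (16 * m + 2) % 4 = 2 by omega]; norm_num)
  have h3 := hA (16 * m + 3) (-5) (by simp only [w4]; rw [show (16 * m + 3) % 4 = 3 by omega]; norm_num)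
  have h4 := hz (16 * m + 4) (by simp only [w4]; rw [show (16 * m + 4) % 4 = 0 by omega]; norm_num)
  have h5 := hA (16 * m + 5) (5) (by simp only [w4]; rw [show (16 * m + 5) % 4 = 1 by omega]; norm_num)
  have h6 := hz (16 * m + 6) (by simp only [w4]; rw [show (16 * m + 6) % 4 = 2 by omega]; norm_num)
  have h7 := hA (16 * m + 7) (-5) (by simp only [w4]; rw [show (16 * m + 7) % 4 = 3 by omega]; norm_num)
  have h8 := hz (16 * m + 8) (by simp only [w4]; rw [show (16 * m + 8) % 4 = 0 by omega]; norm_num)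
  have h9 := hA (16 * m + 9) (5) (by simp only [w4]; rw [show (16 * m + 9) % 4 = 1 by omega]; norm_num)
  have h10 := hz (16 * m + 10) (by simp only [w4]; rw [show (16 * m + 10) % 4 = 2 by omega]; norm_num)
  have h11 := hA (16 * m + 11) (-5) (by simp only [w4]; rw [show (16 * m + 11) % 4 = 3 by omega]; norm_num)
  have h12 := hz (16 * m + 12) (by simp only [w4]; rw [show (16 * m + 12) % 4 = 0 by omega]; norm_num)
  have h13 := hA (16 * m + 13) (5) (by simp only [w4]; rw [show (16 * m + 13) % 4 = 1 by omega]; norm_num)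
  have h14 := hz (16 * m + 14) (by simp only [w4]; rw [show (16 * m + 14) % 4 = 2 by omega]; norm_num)
  have h15 := hA (16 * m + 15) (-5) (by simp only [w4]; rw [show (16 * m + 15) % 4 = 3 by omega]; norm_num)
  simp only [add_assoc, Nat.reduceAdd, add_zero] at h0 h1 h2 h3 h4 h5 h6 h7 h8 h9 h10 h11 h12 h13 h14 h15 hI ⊢
  rw [show 16 * (m + 1) = 16 * m + 16 by ring]
  simp only [add_assoc, Nat.reduceAdd]
  obtain ⟨hI1, hI2⟩ := hI
  obtain ⟨a1, b1, c1⟩ := h1
  rw [max_eq_right (by linarith)] at c1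
  obtain ⟨a3, b3, c3⟩ := h3
  rw [max_eq_left (by linarith)] at c3
  obtain ⟨a5, b5, c5⟩ := h5
  rw [max_eq_right (by linarith)] at c5
  obtain ⟨a7, b7, c7⟩ := h7
  rw [max_eq_left (by linarith)] at c7
  obtain ⟨a9, b9, c9⟩ := h9
  rw [max_eq_left (by linarith)] at c9
  obtain ⟨a11, b11, c11⟩ := h11
  rw [max_eq_right (by linarith)] at c11
  obtain ⟨a13, b13, c13⟩ := h13
  rw [max_eq_left (by linarith)] at c13
  obtain ⟨a15, b15, c15⟩ := h15
  rw [max_eq_right (by linarith)] at c15
  exact ⟨⟨by linarith, by linarith⟩, by linarith⟩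
/-- base pattern of period 6 -/
noncomputable def w6 : ℕ → ℝ := fun n => if n % 6 = 0 then 0 else if n % 6 = 1 then 0 else if n % 6 = 2 then 0 else if n % 6 = 3 then 0 else if n % 6 = 4 then 0 else Real.exp (1)

lemma w6_nonneg (n : ℕ) : 0 ≤ w6 n := by
  unfold w6
  split_ifs <;> positivity

lemma base6 : Base 6 w6 := by
  refine base_of w6 w6_nonneg (fun n => by simp [w6]) 6 (fun P Q => P ≤ -5 ∧ -5 ≤ P) 1 (-5) (0)
    (by norm_num) (by norm_num) ?_
  intro X hz hA m hI
  have h0 := hz (6 * m + 0) (by simp only [w6]; rw [show (6 * m + 0) % 6 = 0 by omega]; norm_num)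
  have h1 := hz (6 * m + 1) (by simp only [w6]; rw [show (6 * m + 1) % 6 = 1 by omega]; norm_num)
  have h2 := hz (6 * m + 2) (by simp only [w6]; rw [show (6 * m + 2) % 6 = 2 by omega]; norm_num)
  have h3 := hz (6 * m + 3) (by simp only [w6]; rw [show (6 * m + 3) % 6 = 3 by omega]; norm_num)
  have h4 := hz (6 * m + 4) (by simp only [w6]; rw [show (6 * m + 4) % 6 = 4 by omega]; norm_num)
  have h5 := hA (6 * m + 5) (1) (by simp only [w6]; rw [show (6 * m + 5) % 6 = 5 by omega]; norm_num)
  simp only [add_assoc, Nat.reduceAdd, add_zero] at h0 h1 h2 h3 h4 h5 hI ⊢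
  rw [show 6 * (m + 1) = 6 * m + 6 by ring]
  simp only [add_assoc, Nat.reduceAdd]
  obtain ⟨hI1, hI2⟩ := hI
  obtain ⟨a5, b5, c5⟩ := h5
  rw [max_eq_left (by linarith)] at c5
  exact ⟨⟨by linarith, by linarith⟩, by linarith⟩
/-- base pattern of period 7 -/
noncomputable def w7 : ℕ → ℝ := fun n => if n % 7 = 0 then 0 else if n % 7 = 1 then Real.exp (0) else if n % 7 = 2 then 0 else if n % 7 = 3 then Real.exp (0) else if n % 7 = 4 then 0 else if n % 7 = 5 then Real.exp (0) else Real.exp (1)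

lemma w7_nonneg (n : ℕ) : 0 ≤ w7 n := by
  unfold w7
  split_ifs <;> positivity

lemma base7 : Base 7 w7 := by
  refine base_of w7 w7_nonneg (fun n => by simp [w7]) 21 (fun P Q => 20 ≤ P ∧ Q ≤ -20) 0 (20) (-20)
    (by norm_num) (by norm_num) ?_
  intro X hz hA m hI
  have h0 := hz (21 * m + 0) (by simp only [w7]; rw [show (21 * m + 0) % 7 = 0 by omega]; norm_num)
  have h1 := hA (21 * m + 1) (0) (by simp only [w7]; rw [show (21 * m + 1) % 7 = 1 by omega]; norm_num)
  have h2 := hz (21 * m + 2) (by simp only [w7]; rw [show (21 * m + 2) % 7 = 2 by omega]; norm_num)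
  have h3 := hA (21 * m + 3) (0) (by simp only [w7]; rw [show (21 * m + 3) % 7 = 3 by omega]; norm_num)
  have h4 := hz (21 * m + 4) (by simp only [w7]; rw [show (21 * m + 4) % 7 = 4 by omega]; norm_num)
  have h5 := hA (21 * m + 5) (0) (by simp only [w7]; rw [show (21 * m + 5) % 7 = 5 by omega]; norm_num)
  have h6 := hA (21 * m + 6) (1) (by simp only [w7]; rw [show (21 * m + 6) % 7 = 6 by omega]; norm_num)
  have h7 := hz (21 * m + 7) (by simp only [w7]; rw [show (21 * m + 7) % 7 = 0 by omega]; norm_num)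
  have h8 := hA (21 * m + 8) (0) (by simp only [w7]; rw [show (21 * m + 8) % 7 = 1 by omega]; norm_num)
  have h9 := hz (21 * m + 9) (by simp only [w7]; rw [show (21 * m + 9) % 7 = 2 by omega]; norm_num)
  have h10 := hA (21 * m + 10) (0) (by simp only [w7]; rw [show (21 * m + 10) % 7 = 3 by omega]; norm_num)
  have h11 := hz (21 * m + 11) (by simp only [w7]; rw [show (21 * m + 11) % 7 = 4 by omega]; norm_num)
  have h12 := hA (21 * m + 12) (0) (by simp only [w7]; rw [show (21 * m + 12) % 7 = 5 by omega]; norm_num)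
  have h13 := hA (21 * m + 13) (1) (by simp only [w7]; rw [show (21 * m + 13) % 7 = 6 by omega]; norm_num)
  have h14 := hz (21 * m + 14) (by simp only [w7]; rw [show (21 * m + 14) % 7 = 0 by omega]; norm_num)
  have h15 := hA (21 * m + 15) (0) (by simp only [w7]; rw [show (21 * m + 15) % 7 = 1 by omega]; norm_num)
  have h16 := hz (21 * m + 16) (by simp only [w7]; rw [show (21 * m + 16) % 7 = 2 by omega]; norm_num)
  have h17 := hA (21 * m + 17) (0) (by simp only [w7]; rw [show (21 * m + 17) % 7 = 3 by omega]; norm_num)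
  have h18 := hz (21 * m + 18) (by simp only [w7]; rw [show (21 * m + 18) % 7 = 4 by omega]; norm_num)
  have h19 := hA (21 * m + 19) (0) (by simp only [w7]; rw [show (21 * m + 19) % 7 = 5 by omega]; norm_num)
  have h20 := hA (21 * m + 20) (1) (by simp only [w7]; rw [show (21 * m + 20) % 7 = 6 by omega]; norm_num)
  simp only [add_assoc, Nat.reduceAdd, add_zero] at h0 h1 h2 h3 h4 h5 h6 h7 h8 h9 h10 h11 h12 h13 h14 h15 h16 h17 h18 h19 h20 hI ⊢
  rw [show 21 * (m + 1) = 21 * m + 21 by ring]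
  simp only [add_assoc, Nat.reduceAdd]
  obtain ⟨hI1, hI2⟩ := hI
  obtain ⟨a1, b1, c1⟩ := h1
  rw [max_eq_left (by linarith)] at c1
  obtain ⟨a3, b3, c3⟩ := h3
  rw [max_eq_right (by linarith)] at c3
  obtain ⟨a5, b5, c5⟩ := h5
  rw [max_eq_left (by linarith)] at c5
  obtain ⟨a6, b6, c6⟩ := h6
  rw [max_eq_left (by linarith)] at c6
  obtain ⟨a8, b8, c8⟩ := h8
  rw [max_eq_right (by linarith)] at c8
  obtain ⟨a10, b10, c10⟩ := h10
  rw [max_eq_left (by linarith)] at c10
  obtain ⟨a12, b12, c12⟩ := h12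
  rw [max_eq_left (by linarith)] at c12
  obtain ⟨a13, b13, c13⟩ := h13
  rw [max_eq_right (by linarith)] at c13
  obtain ⟨a15, b15, c15⟩ := h15
  rw [max_eq_right (by linarith)] at c15
  obtain ⟨a17, b17, c17⟩ := h17
  rw [max_eq_left (by linarith)] at c17
  obtain ⟨a19, b19, c19⟩ := h19
  rw [max_eq_right (by linarith)] at c19
  obtain ⟨a20, b20, c20⟩ := h20
  rw [max_eq_right (by linarith)] at c20
  exact ⟨⟨by linarith, by linarith⟩, by linarith⟩

/-- base pattern of period 5 -/
noncomputable def w5 : ℕ → ℝ := fun n => if n % 5 = 4 then 2 else 1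

lemma base5 : Base 5 w5 := by
  have hw : ∀ n, 0 ≤ w5 n := by
    intro n
    unfold w5
    split_ifs <;> norm_num
  let y := sol w5 1 1
  have hr : ∀ n, y (n + 2) = (w5 n + y (n + 1)) / y n := fun n => rfl
  refine ⟨hw, fun n => by simp [w5], y, one_pos, one_pos, hr, ?_⟩
  have key : ∀ m : ℕ, y (5 * m) = 1 ∧ y (5 * m + 1) = (3 / 2) ^ m := by
    intro m
    induction m with
    | zero => exact ⟨rfl, by simp [y, sol]⟩
    | succ m ih =>
      have ht : (0 : ℝ) < (3 / 2) ^ m := by positivity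
      rw [pow_succ]
      generalize ((3 : ℝ) / 2) ^ m = t at ih ht
      have h0 := hr (5 * m)
      have h1 := hr (5 * m + 1)
      have h2 := hr (5 * m + 2)
      have h3 := hr (5 * m + 3)
      have h4 := hr (5 * m + 4)
      rw [show w5 (5 * m) = 1 by simp [w5], ih.1, ih.2] at h0
      rw [show w5 (5 * m + 1) = 1 by simp [w5], h0, ih.2] at h1
      rw [show w5 (5 * m + 2) = 1 by simp [w5], h1, h0] at h2
      rw [show w5 (5 * m + 3) = 1 by simp [w5], h2, h1] at h3
      rw [show w5 (5 * m + 4) = 2 by simp [w5], h3, h2] at h4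
      constructor
      · rw [show 5 * (m + 1) = 5 * m + 3 + 2 by ring, h3]
        field_simp
        ring
      · rw [show 5 * (m + 1) + 1 = 5 * m + 4 + 2 by ring, h4]
        field_simp
        ring
  rintro ⟨C, hC⟩
  obtain ⟨m, hm⟩ := pow_unbounded_of_one_lt C (show (1 : ℝ) < 3 / 2 by norm_num)
  have := hC ⟨5 * m + 1, rfl⟩
  rw [(key m).2] at this
  linarith

lemma ones {α x : ℕ → ℝ} (hx : ∀ n, 0 < x n) (hr : ∀ n, x (n + 2) = (α n + x (n + 1)) / x n)
    (n j : ℕ) (h : ∀ i < 5 * j, α (n + i) = 1) :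
    x (n + 5 * j) = x n ∧ x (n + 5 * j + 1) = x (n + 1) := by
  induction j with
  | zero => simp
  | succ j ih =>
    obtain ⟨a, b⟩ := ih fun i hi => h i (by omega)
    have h0 := hr (n + 5 * j)
    have h1 := hr (n + (5 * j + 1))
    have h2 := hr (n + (5 * j + 2))
    have h3 := hr (n + (5 * j + 3))
    have h4 := hr (n + (5 * j + 4))
    rw [h _ (by omega)] at h0 h1 h2 h3 h4
    simp only [← add_assoc] at h1 h2 h3 h4
    rw [a, b] at h0
    rw [h0, b] at h1
    rw [h1, h0] at h2
    rw [h2, h1] at h3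
    rw [h3, h2] at h4
    have p0 := hx n
    have p1 := hx (n + 1)
    constructor
    · rw [show n + 5 * (j + 1) = n + 5 * j + 3 + 2 by ring, h3]
      field_simp
      ring
    · rw [show n + 5 * (j + 1) + 1 = n + 5 * j + 4 + 2 by ring, h4]
      field_simp
      ring

lemma not_good {r : ℕ} {w : ℕ → ℝ} (hb : Base r w) (i0 : ℕ) (hi : i0 < r) (h1 : w i0 ≠ 1)
    (hu : ∀ i < r, w i = w i0 → i = i0) (j : ℕ) : ¬ Good (r + 5 * j) := by
  intro hG
  obtain ⟨hw, hp, y, y0, y1, hy, hunb⟩ := hb
  set p := r + 5 * j with hpdef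
  have hp0 : 0 < p := by omega
  let α : ℕ → ℝ := fun n => if n % p < r then w (n % p) else 1
  have hα : ∀ n, 0 ≤ α n := by
    intro n
    simp only [α]
    split_ifs
    · exact hw _
    · norm_num
  let x := sol α (y 0) (y 1)
  have hr : ∀ n, x (n + 2) = (α n + x (n + 1)) / x n := fun n => rfl
  have hx := pos_of hα (x := x) y0 y1 hr
  have hwp : ∀ m i, w (r * m + i) = w i := by
    intro m i
    induction m with
    | zero => simp
    | succ m ih => rw [show r * (m + 1) + i = r * m + i + r by ring, hp, ih]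
  have hmod : ∀ m i, i < p → (p * m + i) % p = i := by
    intro m i h
    rw [Nat.mul_add_mod, Nat.mod_eq_of_lt h]
  have inner : ∀ m, x (p * m) = y (r * m) ∧ x (p * m + 1) = y (r * m + 1) →
      ∀ i ≤ r, x (p * m + i) = y (r * m + i) ∧ x (p * m + i + 1) = y (r * m + i + 1) := by
    intro m hm i
    induction i with
    | zero => exact fun _ => hm
    | succ i ih =>
      intro hi
      obtain ⟨a, b⟩ := ih (by omega)
      refine ⟨b, ?_⟩
      have e : α (p * m + i) = w (r * m + i) := by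
        simp only [α]
        rw [hmod m i (by omega), if_pos (by omega), hwp]
      change x (p * m + i + 2) = y (r * m + i + 2)
      rw [hr, hy, a, b, e]
  have outer : ∀ m, x (p * m) = y (r * m) ∧ x (p * m + 1) = y (r * m + 1) := by
    intro m
    induction m with
    | zero => exact ⟨rfl, rfl⟩
    | succ m ih =>
      obtain ⟨a, b⟩ := inner m ih r le_rfl
      obtain ⟨c, d⟩ := ones hx hr (p * m + r) j (fun i hi => by
        simp only [α]
        rw [add_assoc, hmod m _ (by omega), if_neg (by omega)])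
      rw [show p * (m + 1) = p * m + r + 5 * j by rw [hpdef]; ring, c, d, a, b,
        show r * (m + 1) = r * m + r by ring]
      exact ⟨rfl, rfl⟩
  obtain ⟨C, hC⟩ := hG α hα (fun n => by simp [α]) (fun q hq hqp hper => by
    have a := hper i0
    simp only [α] at a
    rw [Nat.mod_eq_of_lt (by omega : i0 < p), if_pos hi] at a
    split_ifs at a with h
    · have b := hu _ h a
      rcases lt_or_ge (i0 + q) p with c | c
      · rw [Nat.mod_eq_of_lt c] at b
        omega
      · rw [Nat.mod_eq_sub_mod c, Nat.mod_eq_of_lt (by omega)] at b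
        omega
    · exact h1 a.symm) x y0 y1 hr
  refine hunb ⟨C, ?_⟩
  rintro _ ⟨n, rfl⟩
  have hr0 : 0 < r := by omega
  have := (inner (n / r) (outer _) (n % r) (Nat.mod_lt _ hr0).le).1
  rw [Nat.div_add_mod] at this
  rw [← this]
  exact hC ⟨_, rfl⟩

lemma good_two : Good 2 := by
  intro α hα hp hmin x h0 h1 hr
  have hx := pos_of hα h0 h1 hr
  have he : ∀ m, α (2 * m) = α 0 ∧ α (2 * m + 1) = α 1 := by
    intro m
    induction m with
    | zero => simp
    | succ m ih =>
      rw [show 2 * (m + 1) = 2 * m + 2 by ring, hp, show 2 * m + 2 + 1 = 2 * m + 1 + 2 by ring, hp]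
      exact ih
  set a := α 0 with ha
  set b := α 1 with hb
  have a0 : 0 ≤ a := hα 0
  have b0 : 0 ≤ b := hα 1
  have hab : a ≠ b := by
    intro h
    refine hmin 1 one_pos one_lt_two fun n => ?_
    rcases Nat.even_or_odd' n with ⟨m, rfl | rfl⟩
    · rw [(he m).1, (he m).2, h]
    · rw [show 2 * m + 1 + 1 = 2 * (m + 1) by ring, (he _).1, (he m).2, h]
  let V : ℝ → ℝ → ℝ := fun u v => a * u + b * v + b * (u / v) + a * (v / u) + (b ^ 2 + a) / v +
    (b + a ^ 2) / u + a * b / (u * v)
  have hV : ∀ m, V (x (2 * m)) (x (2 * m + 1)) = V (x 0) (x 1) := by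
    intro m
    induction m with
    | zero => rfl
    | succ m ih =>
      rw [← ih]
      have e0 := hr (2 * m)
      have e1 := hr (2 * m + 1)
      rw [(he m).1] at e0
      rw [(he m).2, e0] at e1
      rw [show 2 * (m + 1) = 2 * m + 2 by ring, show 2 * m + 2 + 1 = 2 * m + 1 + 2 by ring, e0, e1]
      have p0 := hx (2 * m)
      have p1 := hx (2 * m + 1)
      generalize x (2 * m) = u at p0
      generalize x (2 * m + 1) = v at p1
      simp only [V]
      field_simp
      ring
  set W := V (x 0) (x 1)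
  have hbd : ∃ C, ∀ u v, 0 < u → 0 < v → V u v = W → u ≤ C ∧ v ≤ C := by
    have key : ∀ c W u t : ℝ, 0 < c → 0 < u → 0 < t → c * u ≤ W → c * t ≤ W →
        u ≤ W / c + (W / c) ^ 2 ∧ u * t ≤ W / c + (W / c) ^ 2 := by
      intro c W u t hc hu ht h1 h2
      have a1 : u ≤ W / c := by rw [le_div_iff₀ hc]; linarith
      have a2 : t ≤ W / c := by rw [le_div_iff₀ hc]; linarith
      have a3 := mul_le_mul a1 a2 ht.le (hu.le.trans a1)
      constructor <;> nlinarith
    rcases a0.eq_or_lt with h | h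
    · have hb' : 0 < b := lt_of_le_of_ne b0 (h ▸ hab)
      refine ⟨W / b + (W / b) ^ 2, fun u v hu hv e => ?_⟩
      simp only [V] at e
      have t1 : 0 ≤ a * u := by positivity
      have t2 : 0 ≤ b * v := by positivity
      have t3 : 0 ≤ b * (u / v) := by positivity
      have t4 : 0 ≤ a * (v / u) := by positivity
      have t5 : 0 ≤ (b ^ 2 + a) / v := by positivity
      have t6 : 0 ≤ (b + a ^ 2) / u := by positivity
      have t7 : 0 ≤ a * b / (u * v) := by positivity
      have := key b W v (u / v) hb' hv (by positivity) (by linarith) (by linarith)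
      rw [mul_div_cancel₀ _ hv.ne'] at this
      exact this.symm
    · refine ⟨W / a + (W / a) ^ 2, fun u v hu hv e => ?_⟩
      simp only [V] at e
      have t1 : 0 ≤ a * u := by positivity
      have t2 : 0 ≤ b * v := by positivity
      have t3 : 0 ≤ b * (u / v) := by positivity
      have t4 : 0 ≤ a * (v / u) := by positivity
      have t5 : 0 ≤ (b ^ 2 + a) / v := by positivity
      have t6 : 0 ≤ (b + a ^ 2) / u := by positivity
      have t7 : 0 ≤ a * b / (u * v) := by positivity
      have := key a W u (v / u) h hu (by positivity) (by linarith) (by linarith)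
      rwa [mul_div_cancel₀ _ hu.ne'] at this
  obtain ⟨C, hC⟩ := hbd
  refine ⟨C, ?_⟩
  rintro _ ⟨n, rfl⟩
  rcases Nat.even_or_odd' n with ⟨m, rfl | rfl⟩
  · exact (hC _ _ (hx _) (hx _) (hV m)).1
  · exact (hC _ _ (hx _) (hx _) (hV m)).2

theorem result (p : ℕ) (hp : 2 ≤ p) : Good p ↔ p = 2 := by
  refine ⟨fun h => ?_, fun h => h ▸ good_two⟩
  by_contra hne
  have e1 : Real.exp 1 ≠ 1 := by simp
  have e0 : (0 : ℝ) ≠ Real.exp 1 := (Real.exp_pos _).ne
  have e5 : (0 : ℝ) ≠ Real.exp 5 := (Real.exp_pos _).ne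
  obtain ⟨j, hj⟩ : ∃ j, p = 3 + 5 * j ∨ p = 4 + 5 * j ∨ p = 5 + 5 * j ∨ p = 6 + 5 * j ∨
      p = 7 + 5 * j := ⟨(p - 3) / 5, by omega⟩
  rcases hj with rfl | rfl | rfl | rfl | rfl
  · refine not_good base3 2 (by norm_num) (by simp [w3]) (fun i hi => ?_) j h
    interval_cases i <;> simp [w3, e0]
  · refine not_good base4 1 (by norm_num) (by simp [w4]) (fun i hi => ?_) j h
    interval_cases i <;> simp [w4, e5]
    norm_num
  · refine not_good base5 4 (by norm_num) (by simp [w5]) (fun i hi => ?_) j h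
    interval_cases i <;> simp [w5]
  · refine not_good base6 5 (by norm_num) (by simp [w6]) (fun i hi => ?_) j h
    interval_cases i <;> simp [w6, e0]
  · refine not_good base7 6 (by norm_num) (by simp [w7]) (fun i hi => ?_) j h
    interval_cases i <;> simp [w7, e0, e1.symm]

end Pool.Agent.Results.MP_e65cda_an.OnlyTwo
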